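import Pool.Agent.Helper60.HC.GoalsP
import Pool.Agent.Helper13.SGE.QTR

/-!
# Project HC (MP_a41896_nt), packet PAIR
-/

set_option autoImplicit false

namespace Pool.Agent.Helper73.HC.PAIR

open Pool.Agent.Helper29.BL

theorem t : Pool.Agent.Helper60.HC.S_PAIR := by
  intro G _ H h n θ K0 x e hθ0 hθ1 hK hK0 hgr hnear
  classical
  set e' : ℕ → ℕ := fun j => if j < n then e j else 0 with he'
  have hnn : ∀ g, 0 ≤ H g := h.nonneg
  have near : ∀ j ≤ n, H ((2 ^ e' j) • x j - x n) ≤ θ ^ 2 * H (x n) := by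
    intro j hj
    rcases lt_or_eq_of_le hj with hlt | rfl
    · simp only [he', hlt, if_true]; exact hnear j hlt
    · simp only [he', lt_irrefl, if_false, pow_zero, one_smul, sub_self, h.zero]
      exact mul_nonneg (sq_nonneg _) (hnn _)
  have big : ∀ j ≤ n, K0 ≤ H (x j) := by
    intro j
    induction j with
    | zero => intro _; exact hK0
    | succ j ih =>
      intro hj
      have h1 := ih (by omega)
      have h2 := hgr j (by omega)
      nlinarith
  have grow : ∀ i j, i < j → j ≤ n → K0 * H (x i) ≤ H (x j) := by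
    intro i j hij
    induction j with
    | zero => omega
    | succ j ih =>
      intro hj
      have h2 := hgr j (by omega)
      rcases Nat.lt_succ_iff_lt_or_eq.mp hij with hlt | rfl
      · have h3 := ih hlt (by omega)
        have h4 := big j (by omega)
        nlinarith
      · exact h2
  have qt : ∀ j ≤ n, (1 - θ) ^ 2 * H (x n) ≤ 4 ^ e' j * H (x j) ∧
      4 ^ e' j * H (x j) ≤ (1 + θ) ^ 2 * H (x n) := fun j hj =>
    Pool.Agent.Helper13.SGE.qtr G H h (e' j) (x j) (x n) θ hθ0 (by linarith) (near j hj)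
  refine ⟨e', fun i j hij hj => ?_⟩
  have hi : i ≤ n := by omega
  have g1 := grow i j hij hj
  have g2 := big i hi
  have g3 := big j hj
  have yi : 0 < H (x i) := by linarith
  have yj : 0 < H (x j) := by linarith
  have hT : 0 < H (x n) := by have := big n le_rfl; linarith
  obtain ⟨a1, a2⟩ := qt i hi
  obtain ⟨b1, b2⟩ := qt j hj
  have pj : (0 : ℝ) < 4 ^ e' j := by positivity
  have pi : (0 : ℝ) < 4 ^ e' i := by positivity
  have s1 : (31 / 32 : ℝ) ^ 2 ≤ (1 - θ) ^ 2 := pow_le_pow_left₀ (by norm_num) (by linarith) 2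
  have s2 : (1 + θ) ^ 2 ≤ (33 / 32 : ℝ) ^ 2 := pow_le_pow_left₀ (by linarith) (by linarith) 2
  -- growth of the exponents
  have k1 : K0 / 4 * (4 : ℝ) ^ e' j ≤ 4 ^ e' i := by
    have c1 : K0 * (4 : ℝ) ^ e' j * H (x i) ≤ 4 ^ e' j * H (x j) := by
      calc K0 * (4 : ℝ) ^ e' j * H (x i) = 4 ^ e' j * (K0 * H (x i)) := by ring
        _ ≤ 4 ^ e' j * H (x j) := mul_le_mul_of_nonneg_left g1 pj.le
    have c2 : (1 + θ) ^ 2 * H (x n) ≤ 4 * ((1 - θ) ^ 2 * H (x n)) := by
      have : (1 + θ) ^ 2 ≤ 4 * (1 - θ) ^ 2 := by linarith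
      nlinarith
    have c3 : K0 * (4 : ℝ) ^ e' j * H (x i) ≤ 4 * 4 ^ e' i * H (x i) := by linarith
    have c4 := le_of_mul_le_mul_right c3 yi
    linarith
  have lt : e' j < e' i := by
    have c : (4 : ℝ) ^ e' j < 4 ^ e' i := by nlinarith
    exact (pow_lt_pow_iff_right₀ (by norm_num : (1 : ℝ) < 4)).mp c
  -- the difference
  have key : H ((2 ^ (e' i - e' j)) • x i - x j) ≤ (4 * θ) ^ 2 * H (x j) := by
    have e1 : (2 ^ e' j) • ((2 ^ (e' i - e' j)) • x i - x j) =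
        ((2 ^ e' i) • x i - x n) + -((2 ^ e' j) • x j - x n) := by
      rw [smul_sub, smul_smul, ← pow_add, Nat.add_sub_cancel' lt.le]
      abel
    have e2 : (4 : ℝ) ^ e' j * H ((2 ^ (e' i - e' j)) • x i - x j) =
        H (((2 ^ e' i) • x i - x n) + -((2 ^ e' j) • x j - x n)) := by
      rw [← e1, h.nsmul, Nat.cast_pow, Nat.cast_ofNat, ← pow_mul, mul_comm (e' j) 2, pow_mul]
      norm_num
    have t1 := h.triangle ((2 ^ e' i) • x i - x n) (-((2 ^ e' j) • x j - x n))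
    rw [h.neg] at t1
    have w : ∀ j ≤ n, √(H ((2 ^ e' j) • x j - x n)) ≤ θ * √(H (x n)) := by
      intro j hj
      rw [Real.sqrt_le_left (mul_nonneg hθ0 (Real.sqrt_nonneg _)), mul_pow,
        Real.sq_sqrt (hnn _)]
      exact near j hj
    have t2 : √(H (((2 ^ e' i) • x i - x n) + -((2 ^ e' j) • x j - x n))) ≤
        2 * θ * √(H (x n)) := by
      have := w i hi
      have := w j hj
      linarith
    have t3 := pow_le_pow_left₀ (Real.sqrt_nonneg _) t2 2
    rw [Real.sq_sqrt (hnn _), mul_pow, Real.sq_sqrt (hnn _), ← e2] at t3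
    have t4 : (2 * θ) ^ 2 * H (x n) ≤ (4 * θ) ^ 2 * ((1 - θ) ^ 2 * H (x n)) := by
      have : (2 * θ) ^ 2 ≤ (4 * θ) ^ 2 * (1 - θ) ^ 2 := by
        have h0 : 0 ≤ θ ^ 2 := sq_nonneg θ
        nlinarith
      nlinarith
    have t5 : (4 : ℝ) ^ e' j * H ((2 ^ (e' i - e' j)) • x i - x j) ≤
        4 ^ e' j * ((4 * θ) ^ 2 * H (x j)) := by
      have : (4 * θ) ^ 2 * ((1 - θ) ^ 2 * H (x n)) ≤ (4 * θ) ^ 2 * (4 ^ e' j * H (x j)) :=
        mul_le_mul_of_nonneg_left b1 (sq_nonneg _)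
      linarith
    exact le_of_mul_le_mul_left t5 pj
  obtain ⟨q1, q2⟩ := Pool.Agent.Helper13.SGE.qtr G H h (e' i - e' j) (x i) (x j) (4 * θ)
    (by linarith) (by linarith) key
  have r1 : (7 / 8 : ℝ) ^ 2 ≤ (1 - 4 * θ) ^ 2 := pow_le_pow_left₀ (by norm_num) (by linarith) 2
  have r2 : (1 + 4 * θ) ^ 2 ≤ (9 / 8 : ℝ) ^ 2 := pow_le_pow_left₀ (by linarith) (by linarith) 2
  refine ⟨lt, g1, g2, k1, key, ?_, ?_⟩
  · nlinarith
  · nlinarith

end Pool.Agent.Helper73.HC.PAIR
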